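import Pool.Agent.Lib.MP_c027d2_an.H35Ex

open Set Metric

namespace Pool.Agent.Variants.MP_c027d2_an.GongThreeFour

/-- On the unit polydisc of `ℂⁿ` (`n ≥ 2`, maximum norm), for `m = 3` and `m = 4`, there is a
normalized starlike biholomorphic map whose homogeneous term of degree `m` has norm `> m` at a
unit vector. -/
theorem result (n : ℕ) (hn : 2 ≤ n) (m : ℕ) (hm : m = 3 ∨ m = 4) :
    ∃ f : (Fin n → ℂ) → (Fin n → ℂ), DifferentiableOn ℂ f (ball 0 1) ∧ InjOn f (ball 0 1) ∧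
      f 0 = 0 ∧ fderiv ℂ f 0 = ContinuousLinearMap.id ℂ (Fin n → ℂ) ∧
      StarConvex ℝ 0 (f '' ball 0 1) ∧ ∃ u : Fin n → ℂ, ‖u‖ = 1 ∧
        (m : ℝ) < ‖((m.factorial : ℂ)⁻¹) • iteratedFDeriv ℂ m f 0 (fun _ => u)‖ := by
  rcases hm with rfl | rfl
  exacts [Lib.MP_c027d2_an.H35.three hn, Lib.MP_c027d2_an.H35.four hn]

end Pool.Agent.Variants.MP_c027d2_an.GongThreeFour
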