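import Pool.Agent.Lib.MP_c027d2_an.Ident

open Pool.Agent.Lib.MP_c027d2_an

namespace Pool.Agent.Variants.MP_c027d2_an.IdentityNorm

/-- For `n ≥ 2`, `A = I` and `M > 1`, the maximum of `‖P_2‖` over the reachable family
`R_{log M}(I)` is `(3 √3 / 2) (1 - 1 / M)`. -/
theorem result (n : ℕ) (hn : 2 ≤ n) (M : ℝ) (hM : 1 < M) :
    IsGreatest ((fun f => sphereNorm (taylorTerm 2 f)) '' Reach (idOp n) (Real.log M))
      (3 * Real.sqrt 3 / 2 * (1 - 1 / M)) :=
  isGreatest_id hn hM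

end Pool.Agent.Variants.MP_c027d2_an.IdentityNorm
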