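import Pool.Agent.Lib.MP_c027d2_an.Main

open Pool.Agent.Lib.MP_c027d2_an

namespace Pool.Agent.Variants.MP_c027d2_an.SecondOrder

/-- For every `A` with `m(A) > 0`, every `M > 1` and all vectors `z, w`, the maximum of
`|<P_2(z), w>|` over the reachable family `R_{log M}(A)` is an explicit integral. -/
theorem result (n : ℕ) (A : Op n) (hA : ∀ z : CE n, z ≠ 0 → 0 < (ip (A z) z).re)
    (M : ℝ) (hM : 1 < M) (z w : CE n) :
    IsGreatest ((fun f => ‖ip (taylorTerm 2 f z) w‖) '' Reach A (Real.log M))
      (secondBound A (Real.log M) z w) :=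
  isGreatest_second hA (Real.log_nonneg hM.le) z w

end Pool.Agent.Variants.MP_c027d2_an.SecondOrder
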