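import Pool.Agent.Lib.MP_c027d2_an.ThirdC

open Pool.Agent.Lib.MP_c027d2_an

namespace Pool.Agent.Variants.MP_c027d2_an.ThirdOrder

/-- For `n ≥ 2`, `A = I` and `M > 1` some map of the reachable family has
`|<P_3(z), z>| = (3 √3 / 4) (1 + √2) (1 - 1 / M) ^ 2` at a unit vector `z`; this exceeds `3`
when `M ≥ 46`. -/
theorem result (n : ℕ) (hn : 2 ≤ n) (M : ℝ) (hM : 1 < M) :
    ∃ f ∈ Reach (idOp n) (Real.log M), ∃ z : CE n, ‖z‖ = 1 ∧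
      ‖ip (taylorTerm 3 f z) z‖ = 3 * Real.sqrt 3 / 4 * (1 + Real.sqrt 2) * (1 - 1 / M) ^ 2 ∧
      (46 ≤ M → 3 < ‖ip (taylorTerm 3 f z) z‖) := by
  obtain ⟨f, hf, z, hz, h⟩ := exists_third hn hM
  have e : ‖ip (taylorTerm 3 f z) z‖ =
      3 * Real.sqrt 3 / 4 * (1 + Real.sqrt 2) * (1 - 1 / M) ^ 2 := by
    rw [h, Complex.norm_real, Real.norm_eq_abs, abs_of_nonneg (by positivity)]
  exact ⟨f, hf, z, hz, e, fun h46 => e ▸ three_lt h46⟩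

end Pool.Agent.Variants.MP_c027d2_an.ThirdOrder
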